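import Pool.Agent.Q248.HP.Stm

set_option autoImplicit false

/-! Lemma LFT of the project HP of helper248: lifting of unit solutions from `ZMod p` to
`ZMod (p ^ h)`. -/

namespace Pool.Agent.Q214.HP

/-- the `h`-th power map is onto the units over an `h`-th power -/
theorem root (p m : ℕ) (hp : p.Prime) (hlt : m + 1 < p) (c : ZMod (p ^ (m + 1))) (y : ZMod p)
    (hd : p ∣ p ^ (m + 1)) (hy : y ≠ 0) (hc : ZMod.castHom hd (ZMod p) c = y ^ (m + 1)) :
    ∃ x : ZMod (p ^ (m + 1)), IsUnit x ∧ x ^ (m + 1) = c ∧ ZMod.castHom hd (ZMod p) x = y := by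
  have hFact := Fact.mk hp
  have hNZ : NeZero (p ^ (m + 1)) := ⟨pow_ne_zero _ hp.ne_zero⟩
  set φ := ZMod.unitsMap hd with hφ
  have hsur : Function.Surjective φ := ZMod.unitsMap_surjective hd
  -- `c` is a unit
  have hcu : IsUnit c := by
    have h1 : ((c.val : ℕ) : ZMod (p ^ (m + 1))) = c := ZMod.natCast_zmod_val c
    rw [← h1, ZMod.isUnit_iff_coprime]
    apply Nat.Coprime.pow_right
    rw [Nat.coprime_comm, hp.coprime_iff_not_dvd]
    intro hdv
    have h2 : ZMod.castHom hd (ZMod p) ((c.val : ℕ) : ZMod (p ^ (m + 1))) = ((c.val : ℕ) : ZMod p) :=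
      map_natCast _ _
    rw [h1, hc, (ZMod.natCast_eq_zero_iff _ _).2 hdv] at h2
    exact pow_ne_zero _ hy h2
  obtain ⟨u, hu⟩ := hcu
  set y' : (ZMod p)ˣ := Units.mk0 y hy with hy'
  obtain ⟨z, hz⟩ := hsur y'
  have hker : φ (u * (z ^ (m + 1))⁻¹) = 1 := by
    rw [map_mul, map_inv, map_pow, hz]
    have : φ u = y' ^ (m + 1) := by
      ext
      rw [Units.val_pow_eq_pow_val, hy', Units.val_mk0, ← hc, ← hu]
      rfl
    rw [this, mul_inv_cancel]
  -- the cardinality of the kernel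
  have hcard : Nat.card φ.ker = p ^ m := by
    have h1 : Nat.card φ.ker * Nat.card (ZMod p)ˣ = Nat.card (ZMod (p ^ (m + 1)))ˣ := by
      have h2 := Subgroup.card_eq_card_quotient_mul_card_subgroup φ.ker
      have h3 : Nat.card ((ZMod (p ^ (m + 1)))ˣ ⧸ φ.ker) = Nat.card (ZMod p)ˣ :=
        Nat.card_congr (QuotientGroup.quotientKerEquivOfSurjective φ hsur).toEquiv
      rw [h2, h3, mul_comm]
    have h2 : Nat.card (ZMod p)ˣ = p - 1 := by
      rw [Nat.card_eq_fintype_card, ZMod.card_units_eq_totient, Nat.totient_prime hp]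
    have h3 : Nat.card (ZMod (p ^ (m + 1)))ˣ = p ^ m * (p - 1) := by
      rw [Nat.card_eq_fintype_card, ZMod.card_units_eq_totient, Nat.totient_prime_pow_succ hp]
    rw [h2, h3] at h1
    exact Nat.eq_of_mul_eq_mul_right (Nat.sub_pos_of_lt hp.one_lt) h1
  have hcop : (Nat.card φ.ker).Coprime (m + 1) := by
    rw [hcard]
    apply Nat.Coprime.pow_left
    rw [hp.coprime_iff_not_dvd]
    intro hdv
    exact absurd (Nat.le_of_dvd (Nat.succ_pos m) hdv) (by omega)
  set w : φ.ker := ⟨u * (z ^ (m + 1))⁻¹, hker⟩ with hw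
  set k := (powCoprime hcop).symm w with hk
  have hkp : k ^ (m + 1) = w := by
    have := (powCoprime hcop).apply_symm_apply w
    rwa [powCoprime_apply] at this
  have hkp' : (k : (ZMod (p ^ (m + 1)))ˣ) ^ (m + 1) = u * (z ^ (m + 1))⁻¹ := by
    have := congrArg (Subtype.val) hkp
    simpa [hw] using this
  refine ⟨((z * (k : (ZMod (p ^ (m + 1)))ˣ) : (ZMod (p ^ (m + 1)))ˣ) : ZMod (p ^ (m + 1))),
    Units.isUnit _, ?_, ?_⟩
  · rw [← Units.val_pow_eq_pow_val, mul_pow, hkp', ← hu]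
    congr 1
    rw [mul_comm u, ← mul_assoc, mul_inv_cancel, one_mul]
  · have h1 : φ (z * (k : (ZMod (p ^ (m + 1)))ˣ)) = y' := by
      rw [map_mul, hz, MonoidHom.mem_ker.1 k.2, mul_one]
    change ((φ (z * (k : (ZMod (p ^ (m + 1)))ˣ)) : (ZMod p)ˣ) : ZMod p) = y
    rw [h1, hy', Units.val_mk0]

end Pool.Agent.Q214.HP

namespace Pool.Agent.Q248.HP

open Pool.Agent.Q214.HP

theorem t_LFT : S_LFT := by
  intro h p h1 hp hlt
  obtain ⟨m, rfl⟩ : ∃ m, h = m + 1 := ⟨h - 1, by omega⟩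
  have hp' := Fact.mk hp
  have hNZ : NeZero (p ^ (m + 1)) := ⟨pow_ne_zero _ hp.ne_zero⟩
  have hd : p ∣ p ^ (m + 1) := dvd_pow_self _ (Nat.succ_ne_zero m)
  have key : ∀ (y : {x : Fin (m + 1) → ZMod p // (∀ i, x i ≠ 0) ∧ ∑ i, x i ^ (m + 1) = 0})
      (t : Fin m → Fin (p ^ m)),
      ∃ x : {x : Fin (m + 1) → ZMod (p ^ (m + 1)) // (∀ i, IsUnit (x i)) ∧ ∑ i, x i ^ (m + 1) = 0},
        ZMod.castHom hd (ZMod p) (x.1 0) = y.1 0 ∧
        ∀ i : Fin m, x.1 i.succ =
          (((y.1 i.succ).val + p * (t i : ℕ) : ℕ) : ZMod (p ^ (m + 1))) := by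
    intro y t
    set a : Fin m → ZMod (p ^ (m + 1)) := fun i =>
      (((y.1 i.succ).val + p * (t i : ℕ) : ℕ) : ZMod (p ^ (m + 1))) with ha
    have hred : ∀ i, ZMod.castHom hd (ZMod p) (a i) = y.1 i.succ := by
      intro i
      rw [ha]
      simp only [map_natCast]
      push_cast
      simp
    have hau : ∀ i, IsUnit (a i) := by
      intro i
      rw [ha]
      simp only
      rw [ZMod.isUnit_iff_coprime]
      apply Nat.Coprime.pow_right
      rw [Nat.coprime_comm, hp.coprime_iff_not_dvd]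
      intro hdv
      have h2 : p ∣ (y.1 i.succ).val := (Nat.dvd_add_left (dvd_mul_right p _)).1 hdv
      have h3 : y.1 i.succ = 0 := by
        rw [← ZMod.natCast_zmod_val (y.1 i.succ)]
        exact (ZMod.natCast_eq_zero_iff _ _).2 h2
      exact y.2.1 _ h3
    have hsum := y.2.2
    rw [Fin.sum_univ_succ] at hsum
    obtain ⟨x0, hx1, hx2, hx3⟩ := root p m hp hlt (-∑ i, a i ^ (m + 1)) (y.1 0) hd (y.2.1 0) (by
      rw [map_neg, map_sum]
      simp only [map_pow, hred]
      exact neg_eq_of_add_eq_zero_left hsum)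
    refine ⟨⟨Fin.cons x0 a, ?_, ?_⟩, ?_, ?_⟩
    · intro i
      refine Fin.cases ?_ (fun j => ?_) i
      · simpa using hx1
      · simpa using hau j
    · rw [Fin.sum_univ_succ]
      simp only [Fin.cons_zero, Fin.cons_succ]
      rw [hx2]
      ring
    · simpa using hx3
    · intro i
      simp [ha]
  choose F hF0 hF1 using key
  have hinj : Function.Injective (fun q : {x : Fin (m + 1) → ZMod p //
      (∀ i, x i ≠ 0) ∧ ∑ i, x i ^ (m + 1) = 0} × (Fin m → Fin (p ^ m)) => F q.1 q.2) := by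
    rintro ⟨y, t⟩ ⟨y', t'⟩ hq
    simp only at hq
    have hlt' : ∀ (z : ZMod p) (s : Fin (p ^ m)), z.val + p * (s : ℕ) < p ^ (m + 1) := by
      intro z s
      have h2 : z.val < p := ZMod.val_lt z
      have h3 : (s : ℕ) + 1 ≤ p ^ m := s.2
      calc z.val + p * (s : ℕ) < p + p * (s : ℕ) := by omega
        _ = p * ((s : ℕ) + 1) := by ring
        _ ≤ p * p ^ m := Nat.mul_le_mul_left _ h3
        _ = p ^ (m + 1) := by ring
    have hnat : ∀ i : Fin m, (y.1 i.succ).val + p * (t i : ℕ) =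
        (y'.1 i.succ).val + p * (t' i : ℕ) := by
      intro i
      have h2 : (F y t).1 i.succ = (F y' t').1 i.succ := by rw [hq]
      rw [hF1, hF1] at h2
      have h3 := congrArg ZMod.val h2
      rwa [ZMod.val_natCast_of_lt (hlt' _ _), ZMod.val_natCast_of_lt (hlt' _ _)] at h3
    have hmod : ∀ i : Fin m, (y.1 i.succ).val = (y'.1 i.succ).val := by
      intro i
      have h2 := congrArg (fun n => n % p) (hnat i)
      simp only [Nat.add_mul_mod_self_left] at h2
      rwa [Nat.mod_eq_of_lt (ZMod.val_lt _), Nat.mod_eq_of_lt (ZMod.val_lt _)] at h2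
    have ht : t = t' := by
      funext i
      have h2 := hnat i
      rw [hmod i] at h2
      have h3 : p * (t i : ℕ) = p * (t' i : ℕ) := by omega
      exact Fin.ext (Nat.eq_of_mul_eq_mul_left hp.pos h3)
    have hy : y = y' := by
      apply Subtype.ext
      funext i
      refine Fin.cases ?_ (fun j => ?_) i
      · rw [← hF0 y t, ← hF0 y' t', hq]
      · exact ZMod.val_injective p (hmod j)
    rw [hy, ht]
  have hfin : Finite {x : Fin (m + 1) → ZMod (p ^ (m + 1)) //
      (∀ i, IsUnit (x i)) ∧ ∑ i, x i ^ (m + 1) = 0} := inferInstance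
  have hle := Nat.card_le_card_of_injective _ hinj
  refine le_trans (le_of_eq ?_) hle
  rw [Nat.card_prod, Nat.card_fun, Nat.card_fin, Nat.card_fin, ← pow_mul]
  simp

end Pool.Agent.Q248.HP
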